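import Mathlib
import Pool.Agent.K1H86.PP.Pats

/-!
# Homothetic copies of all finite configurations of pairs

The set of the pairs `(a, d)` with the property of the question contains `(a, d) + n F` for every finite
configuration `F` of integer points, for a positive proportion of the pairs `(a, d)` in arbitrarily large
squares, and with a ratio `n` from any given set of all the subset sums of `r` integers.

The theorem on 45 linear forms (`Pool.Agent.Y876.FF`) and the theorem of Furstenberg and Katznelson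
(`Pool.Agent.TH709.RGap.ipr`, from the density Hales-Jewett theorem) are from the starting files.
-/

set_option autoImplicit false

namespace Pool.Agent.K1H86.Old.HomotheticPatterns

open Filter

/-- the pair `(a, d)` satisfies the hypotheses and the conclusion of the question; moreover, for arbitrarily
large `x` there are at least `x / (log x) ^ B` primes `q ≤ x` with `a + q d` prime -/
def Good (B : ℕ) (a d : ℤ) : Prop :=
  1 ≤ d ∧ Int.gcd a d = 1 ∧ 2 ∣ a * d ∧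
  {q : ℕ | q.Prime ∧ ∃ p : ℕ, p.Prime ∧ a + q * d = p}.Infinite ∧
  ∃ᶠ x : ℝ in atTop, x / Real.log x ^ B ≤
    (Set.ncard {q : ℕ | (q : ℝ) ≤ x ∧ q.Prime ∧ ∃ p : ℕ, p.Prime ∧ a + q * d = p} : ℝ)

theorem result : ∃ B : ℕ, ∀ k : ℕ, ∃ (r : ℕ) (η : ℝ), 0 < η ∧
    ∀ (F : Fin (k + 1) → ℤ × ℤ) (h : Fin r → ℤ), ∃ I : Finset (Fin r), I.Nonempty ∧
      ∀ L : ℕ, ∃ N : ℕ, L ≤ N ∧ ∃ x y : ℤ,
        η * (N : ℝ) ^ 2 ≤ (Set.ncard {ad : ℤ × ℤ | (x ≤ ad.1 ∧ ad.1 < x + N) ∧ (y ≤ ad.2 ∧ ad.2 < y + N) ∧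
          ∀ t, Good B (ad.1 + (∑ i ∈ I, h i) * (F t).1) (ad.2 + (∑ i ∈ I, h i) * (F t).2)} : ℝ) := by
  refine ⟨Pool.Agent.K1H86.PP.C45, fun k => ?_⟩
  obtain ⟨r, η, hη, H⟩ := Pool.Agent.K1H86.PP.patterns k
  refine ⟨r, η, hη, fun F h => ?_⟩
  obtain ⟨I, hI, H2⟩ := H F h
  refine ⟨I, hI, fun L => ?_⟩
  obtain ⟨N, hN, x, y, H3⟩ := H2 L
  refine ⟨N, hN, x, y, H3.trans (Nat.cast_le.2 (Set.ncard_le_ncard ?_ ?_))⟩
  · rintro ad ⟨h1, h2, h3⟩
    refine ⟨h1, h2, fun t => ?_⟩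
    obtain ⟨_, h5, h6, h7⟩ := h3 t
    exact ⟨h5, Pool.Agent.K1H86.PP.gcd_of_good (by omega) h7, Dvd.dvd.mul_right h6 _, h7.infinite, h7⟩
  · apply ((Set.finite_Ico x (x + N)).prod (Set.finite_Ico y (y + N))).subset
    rintro ad ⟨h1, h2, _⟩
    exact ⟨h1, h2⟩

end Pool.Agent.K1H86.Old.HomotheticPatterns
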