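import Mathlib
import Pool.Agent.K1H86.PP.Sim
import Pool.Agent.K1H86.PP.Pats

/-!
# Many substitutions and all residue classes at the same time

For every finite set `K` of pairs `(k, l)`, `k ≠ 0`, and every modulus `M` a positive proportion of the pairs
`(a, d)` has the property that ALL the pairs `(k a + l (1 - d), d)`, `(k, l) ∈ K`, satisfy the hypotheses and
the conclusion of the question, with primes `q` in every residue class prime to `M`. (The pair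
`(k a + l (1 - d), d)` belongs to the map `x ↦ a + d x` after the change of coordinates `x ↦ k x + l`.)

The theorem on 45 linear forms (`Pool.Agent.Y876.FF`) and Ramsey's theorem (`Pool.Agent.H672R3.HomPat`) are
from the starting files.
-/

set_option autoImplicit false

namespace Pool.Agent.K1H86.Old.ManySubstitutionsAtOnce

open Filter

/-- the pair `(a, d)` satisfies the hypotheses of the question, `a + q d` is prime for infinitely many primes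
`q ≡ r (mod M)`, and for arbitrarily large `x` there are at least `x / (log x) ^ B` such `q ≤ x` -/
def Good (B M r : ℕ) (a d : ℤ) : Prop :=
  Int.gcd a d = 1 ∧ 2 ∣ a * d ∧
  {q : ℕ | q.Prime ∧ q ≡ r [MOD M] ∧ ∃ p : ℕ, p.Prime ∧ a + q * d = p}.Infinite ∧
  ∃ᶠ x : ℝ in atTop, x / Real.log x ^ B ≤
    (Set.ncard {q : ℕ | (q : ℝ) ≤ x ∧ q.Prime ∧ q ≡ r [MOD M] ∧ ∃ p : ℕ, p.Prime ∧ a + q * d = p} : ℝ)

theorem result : ∃ B : ℕ, ∀ K : Finset (ℤ × ℤ), (∀ k ∈ K, k.1 ≠ 0) → ∀ M : ℕ, 0 < M →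
    ∃ c : ℝ, 0 < c ∧ ∃ Y₀ : ℕ, ∀ X Y : ℕ, Y₀ ≤ Y → Y ≤ X →
      c * X * Y ≤ (Set.ncard {ad : ℤ × ℤ | 1 ≤ ad.1 ∧ ad.1 ≤ X ∧ 1 ≤ ad.2 ∧ ad.2 ≤ Y ∧
        ∀ k ∈ K, ∀ r : ℕ, r.Coprime M →
          Good B M r (k.1 * ad.1 + k.2 * (1 - ad.2)) ad.2} : ℝ) := by
  refine ⟨Pool.Agent.K1H86.PP.C45, fun K hK M hM => ?_⟩
  obtain ⟨c, hc, Y₀, hY⟩ := Pool.Agent.K1H86.PP.simultaneous K hK M hM
  refine ⟨c, hc, Y₀, fun X Y h1 h2 => (hY X Y h1 h2).trans (Nat.cast_le.2 (Set.ncard_le_ncard ?_ ?_))⟩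
  · rintro ad ⟨h3, h4, h5, h6, _, _, h7, h8, h9⟩
    refine ⟨h3, h4, h5, h6, fun k hk r hr => ?_⟩
    have h10 := h9 k hk r hr
    have h11 : Pool.Agent.K1H86.PP.GoodC Pool.Agent.K1H86.PP.C45
        (k.1 * ad.1 + k.2 * (1 - ad.2)) ad.2 := by
      unfold Pool.Agent.K1H86.PP.GoodR at h10
      exact h10.mono fun q hq => ⟨hq.1, hq.2.2⟩
    refine ⟨Pool.Agent.K1H86.PP.gcd_of_good (by omega) h11, ?_, ?_, h10⟩
    · refine Dvd.dvd.mul_right (dvd_add (Dvd.dvd.mul_left h7 _) (Dvd.dvd.mul_left ?_ _)) _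
      have h12 : 1 - ad.2 = -(ad.2 - 1) := by ring
      rw [h12]
      exact h8.neg_right
    · unfold Pool.Agent.K1H86.PP.GoodR at h10
      exact h10.infinite
  · apply ((Set.finite_Icc (1 : ℤ) X).prod (Set.finite_Icc (1 : ℤ) Y)).subset
    rintro ad ⟨h1, h2, h3, h4, _⟩
    exact ⟨⟨h1, h2⟩, h3, h4⟩

end Pool.Agent.K1H86.Old.ManySubstitutionsAtOnce
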