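import Mathlib
import Pool.Agent.K1H86.PP.Inf

/-!
# One infinite set of exponents for all pairs `(a, d)`

The `j`-th iterate of the map `x ↦ a + d x` is `x ↦ a (1 + d + ... + d ^ (j - 1)) + d ^ j x`. Every infinite
set `A` of natural numbers contains an infinite set `T`, the same for ALL coprime pairs `(a, d)`, `d ≥ 1`,
`a ≠ 0`, such that for all large `s < t` in `T` (depending on `(a, d)`) the `(t - s)`-th iterate of
`x ↦ a + d x` maps infinitely many primes to primes; moreover for `m` large members `t 1 < ... < t m` of `T`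
every pattern of primes and composite numbers occurs among the values at `q` of the iterates with the numbers
`t i - t 1`, for many primes `q`. The same holds for the quotients of any countable family of infinite chains
of maps `x ↦ b t + D t x`.

The theorem on hereditary patterns of linear forms (`Pool.Agent.Y876.HS.hereditary`) and Ramsey's theorem for
infinite sets (`Pool.Agent.H672R3.HomPat.ram_inf`) are from the starting files.
-/

set_option autoImplicit false

namespace Pool.Agent.K1H86.Old.UniversalExponents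

open Filter
open Pool.Agent.K1H86.PP (Seq Pat inf_all Pat.chain)

/-- the constant term of the `j`-th iterate of `x ↦ a + d x` -/
def it (a d : ℤ) (j : ℕ) : ℤ := a * ∑ i ∈ Finset.range j, d ^ i

theorem it_add (a d : ℤ) (s j : ℕ) : it a d (s + j) = it a d j + d ^ j * it a d s := by
  unfold it
  rw [Nat.add_comm, Finset.sum_range_add]
  simp only [pow_add, ← Finset.mul_sum]
  ring

theorem it_sub (a d : ℤ) {s t : ℕ} (h : s ≤ t) : it a d t - d ^ (t - s) * it a d s = it a d (t - s) := by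
  obtain ⟨j, rfl⟩ := Nat.exists_eq_add_of_le h
  rw [it_add, Nat.add_sub_cancel_left]
  ring

theorem it_coprime {a d : ℤ} (h : Int.gcd a d = 1) (j : ℕ) : IsCoprime (d ^ j) (it a d j) := by
  cases j with
  | zero => rw [pow_zero]; exact isCoprime_one_left
  | succ j =>
    have h1 : it a d (j + 1) = a + d * it a d j := by
      have := it_add a d j 1
      rw [this]
      simp [it]
    rw [h1]
    apply IsCoprime.pow_left
    have h2 : IsCoprime d a := (Int.isCoprime_iff_gcd_eq_one.2 h).symm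
    exact IsCoprime.add_mul_left_right h2 _

theorem it_inj {a d : ℤ} (hd : 1 ≤ d) (ha : a ≠ 0) :
    Function.Injective (fun t => (d ^ t, it a d t)) := by
  intro s t hst
  simp only [Prod.mk.injEq] at hst
  rcases eq_or_lt_of_le hd with h1 | h1
  · rw [← h1] at hst
    unfold it at hst
    simp only [one_pow, Finset.sum_const, Finset.card_range, nsmul_eq_mul, mul_one, true_and] at hst
    exact_mod_cast mul_left_cancel₀ ha hst
  · have h2 : d.natAbs ^ s = d.natAbs ^ t := by
      have := congrArg Int.natAbs hst.1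
      rwa [Int.natAbs_pow, Int.natAbs_pow] at this
    exact Nat.pow_right_injective (by omega) h2

theorem result : ∃ C : ℕ → ℕ, ∀ A : Set ℕ, A.Infinite →
    (∃ T ⊆ A, T.Infinite ∧ ∀ a d : ℤ, 1 ≤ d → Int.gcd a d = 1 → a ≠ 0 → ∀ m : ℕ, 1 ≤ m →
      ∃ t₀ : ℕ, ∀ E : Finset ℕ, (E : Set ℕ) ⊆ T → E.card = m → (∀ t ∈ E, t₀ ≤ t) →
        ∀ s ∈ E, (∀ t ∈ E, s ≤ t) →
        ∀ R : Finset (ℤ × ℤ), (∀ r ∈ R, 1 ≤ r.1 ∧
          ∀ t, (r.1 * d ^ s, r.1 * it a d s + r.2) ≠ (d ^ t, it a d t)) →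
        ∀ J ⊆ E, s ∈ J →
          ∃ᶠ x : ℝ in atTop, x / Real.log x ^ C m ≤ (Set.ncard {q : ℕ | (q : ℝ) ≤ x ∧ q.Prime ∧
            (∀ t ∈ E, ((∃ p : ℕ, p.Prime ∧ it a d (t - s) + q * d ^ (t - s) = p) ↔ t ∈ J)) ∧
            ∀ r ∈ R, ¬ (r.2 + q * r.1).natAbs.Prime} : ℝ)) ∧
    ∀ (ι : Type) [Countable ι] (b D : ι → ℕ → ℤ),
      (∀ i t, 1 ≤ D i t ∧ Int.gcd (b i t) (D i t) = 1 ∧ D i t ∣ D i (t + 1)) →
      (∀ i, Function.Injective (fun t => (b i t, D i t))) →
      ∃ T ⊆ A, T.Infinite ∧ ∀ (i : ι) (m : ℕ), 1 ≤ m →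
      ∃ t₀ : ℕ, ∀ E : Finset ℕ, (E : Set ℕ) ⊆ T → E.card = m → (∀ t ∈ E, t₀ ≤ t) →
        ∀ s ∈ E, (∀ t ∈ E, s ≤ t) →
        ∀ R : Finset (ℤ × ℤ), (∀ r ∈ R, 1 ≤ r.1 ∧
          ∀ t, (r.1 * D i s, r.1 * b i s + r.2) ≠ (D i t, b i t)) →
        ∀ J ⊆ E, s ∈ J →
          ∃ᶠ x : ℝ in atTop, x / Real.log x ^ C m ≤ (Set.ncard {q : ℕ | (q : ℝ) ≤ x ∧ q.Prime ∧
            (∀ t ∈ E, ((∃ p : ℕ, p.Prime ∧
              (b i t - D i t / D i s * b i s) + q * (D i t / D i s) = p) ↔ t ∈ J)) ∧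
            ∀ r ∈ R, ¬ (r.2 + q * r.1).natAbs.Prime} : ℝ) := by
  obtain ⟨C, hC⟩ := inf_all
  refine ⟨fun m => C m + 2, fun A hA => ⟨?_, ?_⟩⟩
  · obtain ⟨T, hTA, hT, hTE⟩ := hC {z : ℤ × ℤ // 1 ≤ z.2 ∧ Int.gcd z.1 z.2 = 1 ∧ z.1 ≠ 0}
      (fun z t => (z.1.2 ^ t, it z.1.1 z.1.2 t)) (fun z =>
        { pos := fun t => by
            have := z.2.1
            show 0 < z.1.2 ^ t
            positivity
          prim := fun t => it_coprime z.2.2.1 t
          inj := it_inj z.2.1 z.2.2.2 }) A hA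
    refine ⟨T, hTA, hT, fun a d hd hg ha m hm => ?_⟩
    obtain ⟨t₀, ht₀⟩ := hTE ⟨(a, d), hd, hg, ha⟩ m hm
    refine ⟨t₀, fun E h1 h2 h3 s hs hmin R hR J hJ hsJ => ?_⟩
    have hd0 : 0 < d := by omega
    have h4 := Pat.chain (f := fun t => (d ^ t, it a d t))
      { pos := fun t => by
          show 0 < d ^ t
          positivity
        prim := fun t => it_coprime hg t
        inj := it_inj hd ha } (fun s t hst => pow_dvd_pow d hst) (ht₀ E h1 h2 h3) hs hmin R hR J hJ hsJ
    refine Pool.Agent.K1H86.PP.Often.mono h4 fun q hq => ⟨hq.1, fun t ht => ?_, hq.2.2⟩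
    have h5 := hq.2.1 t ht
    have hst := hmin t ht
    have h6 : d ^ t / d ^ s = d ^ (t - s) := by
      have h7 : d ^ t = d ^ s * d ^ (t - s) := by rw [← pow_add]; congr 1; omega
      rw [h7]
      exact Int.mul_ediv_cancel_left _ (by positivity)
    simp only [h6, it_sub a d hst] at h5
    exact h5
  · intro ι _ b D hbD hinj
    have hseq : ∀ i, Seq (fun t => (D i t, b i t)) := fun i =>
      { pos := fun t => by
          have := (hbD i t).1
          show 0 < D i t
          omega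
        prim := fun t => (Int.isCoprime_iff_gcd_eq_one.2 (hbD i t).2.1).symm
        inj := by
          intro s t hst
          apply hinj i
          simp only [Prod.mk.injEq] at hst ⊢
          exact ⟨hst.2, hst.1⟩ }
    obtain ⟨T, hTA, hT, hTE⟩ := hC ι (fun i t => (D i t, b i t)) hseq A hA
    refine ⟨T, hTA, hT, fun i m hm => ?_⟩
    obtain ⟨t₀, ht₀⟩ := hTE i m hm
    refine ⟨t₀, fun E h1 h2 h3 s hs hmin R hR J hJ hsJ => ?_⟩
    have hdvd : ∀ s t, s ≤ t → D i s ∣ D i t := by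
      intro s t hst
      induction t, hst using Nat.le_induction with
      | base => exact dvd_rfl
      | succ t _ ih => exact ih.trans (hbD i t).2.2
    exact Pat.chain (hseq i) hdvd (ht₀ E h1 h2 h3) hs hmin R hR J hJ hsJ

end Pool.Agent.K1H86.Old.UniversalExponents
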